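import Mathlib

set_option autoImplicit false

/-!
Combinatorial core of the averaging method.

`V` is a finite vector space over a finite field `F`: its elements are the curves of a linear
family.  `X` is a finite set of points; the curves through the point `x` lie in the hyperplane
`φ x v = c x`.  For a good pencil `v + F r` (predicate `ts v r`) the finite set `L v r` of base
points is given.  `δ x v` is a real function of the pairs (point, curve) with mean value `0` for
each point, whose sum over `L v r` is the same for all curves of the pencil.  If moreover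
on each curve the sums over the good sets `L v r` control the `L^2` norm with a constant `κ`
larger than `M * card V / (card F)^2`, then `δ = 0`.
-/

namespace Pool.Agent.H20.Par

open Finset BigOperators

section core

variable {F V X : Type*} [Field F] [Fintype F] [AddCommGroup V] [Module F V] [Fintype V]
  [Fintype X] [DecidableEq F] [DecidableEq V] [DecidableEq X]

/-- Sum of `a u * a (u + z)` over all `z ≠ 0` in a subgroup-like set, for `a` of sum zero. -/
theorem offdiag (a : V → ℝ) (ha : ∑ v, a v = 0) :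
    ∑ z ∈ (univ.erase (0 : V)), ∑ u, a u * a (u + z) = - ∑ u, a u ^ 2 := by
  have h1 : ∑ z : V, ∑ u, a u * a (u + z) = 0 := by
    rw [Finset.sum_comm]
    have : ∀ u : V, ∑ z : V, a u * a (u + z) = 0 := by
      intro u
      rw [← Finset.mul_sum]
      have : ∑ z : V, a (u + z) = ∑ z : V, a z :=
        Fintype.sum_equiv (Equiv.addLeft u) _ _ (fun z => by simp)
      rw [this, ha, mul_zero]
    simp [this]
  have h2 := Finset.add_sum_erase (univ : Finset V) (fun z => ∑ u, a u * a (u + z))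
    (Finset.mem_univ (0 : V))
  rw [h1] at h2
  have h3 : ∑ u, a u * a (u + 0) = ∑ u, a u ^ 2 := by
    refine Finset.sum_congr rfl fun u _ => ?_
    rw [add_zero]; ring
  rw [h3] at h2
  linarith

/-- The Radon transform over lines, for one point: `a` is a function on `V` supported on the
hyperplane `φ v = c`, with sum zero. -/
theorem radon (φ : V →ₗ[F] F) (c : F) (a : V → ℝ) (hsupp : ∀ v, φ v ≠ c → a v = 0)
    (hmean : ∑ v, a v = 0) (hφ : φ ≠ 0) :
    ∑ v, ∑ r ∈ univ.filter (fun r : V => r ≠ 0 ∧ φ r = 0), (∑ τ : F, a (v + τ • r)) ^ 2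
      ≤ (Fintype.card V : ℝ) * ∑ v, a v ^ 2 := by
  classical
  set q : ℝ := (Fintype.card F : ℝ) with hq
  have hqpos : 0 < q := by
    rw [hq]; exact_mod_cast Fintype.card_pos
  set K : Finset V := univ.filter (fun r : V => φ r = 0) with hK
  -- expand the square for fixed `r`
  have hexp : ∀ r : V, ∑ v, (∑ τ : F, a (v + τ • r)) ^ 2
      = q * ∑ σ : F, ∑ u, a u * a (u + σ • r) := by
    intro r
    have h1 : ∀ v, (∑ τ : F, a (v + τ • r)) ^ 2
        = ∑ τ : F, ∑ σ : F, a (v + τ • r) * a (v + τ • r + σ • r) := by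
      intro v
      rw [sq, Finset.sum_mul_sum]
      refine Finset.sum_congr rfl fun τ _ => ?_
      refine (Fintype.sum_equiv (Equiv.addLeft τ) _ _ (fun σ => ?_)).symm
      simp [add_smul, add_assoc]
    simp_rw [h1]
    rw [Finset.sum_comm]
    have h2 : ∀ τ : F, ∑ v, ∑ σ : F, a (v + τ • r) * a (v + τ • r + σ • r)
        = ∑ σ : F, ∑ u, a u * a (u + σ • r) := by
      intro τ
      rw [Finset.sum_comm]
      refine Finset.sum_congr rfl fun σ _ => ?_
      exact Fintype.sum_equiv (Equiv.addRight (τ • r)) _ _ (fun v => by simp)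
    simp_rw [h2]
    rw [Finset.sum_const, Finset.card_univ, nsmul_eq_mul]
  rw [Finset.sum_comm]
  simp_rw [hexp]
  rw [← Finset.mul_sum, Finset.sum_comm]
  -- separate `σ = 0`
  set R : Finset V := univ.filter (fun r : V => r ≠ 0 ∧ φ r = 0) with hR
  set A : ℝ := ∑ v, a v ^ 2 with hA
  have hA0 : 0 ≤ A := Finset.sum_nonneg fun _ _ => sq_nonneg _
  have hzero : ∑ r ∈ R, ∑ u, a u * a (u + (0 : F) • r) = (R.card : ℝ) * A := by
    have : ∀ r ∈ R, ∑ u, a u * a (u + (0 : F) • r) = A := by
      intro r _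
      rw [hA]
      refine Finset.sum_congr rfl fun u _ => ?_
      rw [zero_smul, add_zero]; ring
    rw [Finset.sum_congr rfl this, Finset.sum_const, nsmul_eq_mul]
  have hnon : ∀ σ : F, σ ≠ 0 → ∑ r ∈ R, ∑ u, a u * a (u + σ • r) = - A := by
    intro σ hσ
    have h1 : ∑ r ∈ R, ∑ u, a u * a (u + σ • r) = ∑ r ∈ R, ∑ u, a u * a (u + r) := by
      refine Finset.sum_bij' (fun r _ => σ • r) (fun r _ => σ⁻¹ • r) ?_ ?_ ?_ ?_ ?_
      · intro r hr
        rw [hR, Finset.mem_filter] at hr ⊢
        refine ⟨Finset.mem_univ _, smul_ne_zero hσ hr.2.1, ?_⟩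
        rw [map_smul, hr.2.2, smul_zero]
      · intro r hr
        rw [hR, Finset.mem_filter] at hr ⊢
        refine ⟨Finset.mem_univ _, smul_ne_zero (inv_ne_zero hσ) hr.2.1, ?_⟩
        rw [map_smul, hr.2.2, smul_zero]
      · intro r _
        rw [smul_smul, inv_mul_cancel₀ hσ, one_smul]
      · intro r _
        rw [smul_smul, mul_inv_cancel₀ hσ, one_smul]
      · intro r _
        rfl
    rw [h1, ← offdiag a hmean]
    -- the other `z` do not contribute
    refine Finset.sum_subset ?_ ?_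
    · intro r hr
      rw [hR, Finset.mem_filter] at hr
      exact Finset.mem_erase.2 ⟨hr.2.1, Finset.mem_univ _⟩
    · intro r hr hr'
      refine Finset.sum_eq_zero fun u _ => ?_
      have hr0 : r ≠ 0 := (Finset.mem_erase.1 hr).1
      have hφr : φ r ≠ 0 := by
        intro h
        exact hr' (by rw [hR, Finset.mem_filter]; exact ⟨Finset.mem_univ _, hr0, h⟩)
      by_cases hu : φ u = c
      · have : φ (u + r) ≠ c := by
          rw [map_add, hu]
          intro h
          exact hφr (by simpa using h)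
        rw [hsupp _ this, mul_zero]
      · rw [hsupp _ hu, zero_mul]
  have hsplit : ∑ σ : F, ∑ r ∈ R, ∑ u, a u * a (u + σ • r)
      = (R.card : ℝ) * A + ∑ σ ∈ univ.erase (0 : F), (- A) := by
    rw [← Finset.add_sum_erase _ _ (Finset.mem_univ (0 : F)), hzero]
    congr 1
    refine Finset.sum_congr rfl fun σ hσ => hnon σ (Finset.mem_erase.1 hσ).1
  rw [hsplit]
  have hneg : ∑ σ ∈ univ.erase (0 : F), (- A) ≤ 0 :=
    Finset.sum_nonpos fun _ _ => by linarith
  -- `q * card R ≤ card V`
  have hcard : q * (R.card : ℝ) ≤ (Fintype.card V : ℝ) := by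
    obtain ⟨w, hw⟩ : ∃ w, φ w ≠ 0 := by
      by_contra h
      push Not at h
      exact hφ (LinearMap.ext fun w => by simpa using h w)
    have hinj : Function.Injective (fun p : F × {r : V // φ r = 0} => p.1 • w + p.2.1) := by
      rintro ⟨σ, r⟩ ⟨σ', r'⟩ h
      have h1 : σ • w + r.1 = σ' • w + r'.1 := h
      have h2 := congrArg φ h1
      rw [map_add, map_add, map_smul, map_smul, r.2, r'.2, add_zero, add_zero, smul_eq_mul,
        smul_eq_mul] at h2
      have h3 : σ = σ' := mul_right_cancel₀ hw h2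
      subst h3
      have h4 : r.1 = r'.1 := add_left_cancel h1
      exact Prod.ext rfl (Subtype.ext h4)
    have h1 := Fintype.card_le_of_injective _ hinj
    rw [Fintype.card_prod] at h1
    have h2 : R.card ≤ Fintype.card {r : V // φ r = 0} := by
      rw [Fintype.card_subtype]
      refine Finset.card_le_card fun r hr => ?_
      rw [hR, Finset.mem_filter] at hr
      exact Finset.mem_filter.2 ⟨Finset.mem_univ _, hr.2.2⟩
    have h3 : Fintype.card F * R.card ≤ Fintype.card V :=
      le_trans (Nat.mul_le_mul_left _ h2) h1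
    rw [hq]
    exact_mod_cast h3
  calc q * ((R.card : ℝ) * A + ∑ σ ∈ univ.erase (0 : F), (- A))
      ≤ q * ((R.card : ℝ) * A) := by
        apply mul_le_mul_of_nonneg_left _ hqpos.le
        linarith
    _ = (q * (R.card : ℝ)) * A := by ring
    _ ≤ (Fintype.card V : ℝ) * A := mul_le_mul_of_nonneg_right hcard hA0

/-- **Combinatorial core.** -/
theorem core (φ : X → V →ₗ[F] F) (c : X → F) (hφ : ∀ x, φ x ≠ 0)
    (ts : V → V → Prop) [∀ v r, Decidable (ts v r)] (L : V → V → Finset X) (M : ℕ)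
    (hcard : ∀ v r, ts v r → (L v r).card ≤ M)
    (hts : ∀ v r, ts v r → r ≠ 0 ∧ ∀ x ∈ L v r, φ x v = c x ∧ φ x r = 0)
    (δ : X → V → ℝ) (hsupp : ∀ x v, φ x v ≠ c x → δ x v = 0) (hmean : ∀ x, ∑ v, δ x v = 0)
    (hrel : ∀ v r, ts v r → ∀ τ : F,
      ∑ x ∈ L v r, δ x (v + τ • r) = ∑ x ∈ L v r, δ x v)
    (κ : ℝ) (hκ : (M : ℝ) * (Fintype.card V : ℝ) < κ * (Fintype.card F : ℝ) ^ 2)
    (hlow : ∀ v, κ * ∑ x, δ x v ^ 2
      ≤ ∑ r ∈ univ.filter (fun r => ts v r), (∑ x ∈ L v r, δ x v) ^ 2) :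
    ∀ x v, δ x v = 0 := by
  classical
  set q : ℝ := (Fintype.card F : ℝ) with hq
  have hqpos : 0 < q := by
    rw [hq]; exact_mod_cast Fintype.card_pos
  set N : ℝ := ∑ v, ∑ x, δ x v ^ 2 with hN
  have hN0 : 0 ≤ N := Finset.sum_nonneg fun _ _ => Finset.sum_nonneg fun _ _ => sq_nonneg _
  have h1 : κ * N ≤ ∑ v, ∑ r ∈ univ.filter (fun r => ts v r), (∑ x ∈ L v r, δ x v) ^ 2 := by
    rw [hN, Finset.mul_sum]
    exact Finset.sum_le_sum fun v _ => hlow v
  -- the pencil average
  have h2 : ∀ v r, ts v r → q ^ 2 * (∑ x ∈ L v r, δ x v) ^ 2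
      ≤ (M : ℝ) * ∑ x ∈ L v r, (∑ τ : F, δ x (v + τ • r)) ^ 2 := by
    intro v r h
    have h3 : q * (∑ x ∈ L v r, δ x v) = ∑ x ∈ L v r, ∑ τ : F, δ x (v + τ • r) := by
      rw [Finset.sum_comm]
      rw [Finset.sum_congr rfl fun τ _ => hrel v r h τ]
      rw [Finset.sum_const, Finset.card_univ, nsmul_eq_mul]
    rw [← mul_pow, h3]
    have h4 := sq_sum_le_card_mul_sum_sq (s := L v r)
      (f := fun x => ∑ τ : F, δ x (v + τ • r))
    refine h4.trans ?_
    apply mul_le_mul_of_nonneg_right _ (Finset.sum_nonneg fun _ _ => sq_nonneg _)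
    exact_mod_cast hcard v r h
  have h3 : q ^ 2 * ∑ v, ∑ r ∈ univ.filter (fun r => ts v r), (∑ x ∈ L v r, δ x v) ^ 2
      ≤ (M : ℝ) * ((Fintype.card V : ℝ) * N) := by
    calc q ^ 2 * ∑ v, ∑ r ∈ univ.filter (fun r => ts v r), (∑ x ∈ L v r, δ x v) ^ 2
        = ∑ v, ∑ r ∈ univ.filter (fun r => ts v r), q ^ 2 * (∑ x ∈ L v r, δ x v) ^ 2 := by
          rw [Finset.mul_sum]
          exact Finset.sum_congr rfl fun v _ => Finset.mul_sum _ _ _
      _ ≤ ∑ v, ∑ r ∈ univ.filter (fun r => ts v r),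
            (M : ℝ) * ∑ x ∈ L v r, (∑ τ : F, δ x (v + τ • r)) ^ 2 := by
          refine Finset.sum_le_sum fun v _ => Finset.sum_le_sum fun r hr => ?_
          exact h2 v r (Finset.mem_filter.1 hr).2
      _ = (M : ℝ) * ∑ v, ∑ r ∈ univ.filter (fun r => ts v r),
            ∑ x ∈ L v r, (∑ τ : F, δ x (v + τ • r)) ^ 2 := by
          rw [Finset.mul_sum]
          exact Finset.sum_congr rfl fun v _ => (Finset.mul_sum _ _ _).symm
      _ ≤ (M : ℝ) * ∑ v, ∑ r ∈ univ.filter (fun r : V => r ≠ 0),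
            ∑ x ∈ univ.filter (fun x => φ x r = 0), (∑ τ : F, δ x (v + τ • r)) ^ 2 := by
          apply mul_le_mul_of_nonneg_left _ (Nat.cast_nonneg M)
          refine Finset.sum_le_sum fun v _ => ?_
          calc ∑ r ∈ univ.filter (fun r => ts v r),
                  ∑ x ∈ L v r, (∑ τ : F, δ x (v + τ • r)) ^ 2
              ≤ ∑ r ∈ univ.filter (fun r => ts v r),
                  ∑ x ∈ univ.filter (fun x => φ x r = 0),
                    (∑ τ : F, δ x (v + τ • r)) ^ 2 := by
                refine Finset.sum_le_sum fun r hr => ?_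
                refine Finset.sum_le_sum_of_subset_of_nonneg ?_ fun _ _ _ => sq_nonneg _
                intro x hx
                exact Finset.mem_filter.2 ⟨Finset.mem_univ _,
                  ((hts v r (Finset.mem_filter.1 hr).2).2 x hx).2⟩
            _ ≤ _ := by
                refine Finset.sum_le_sum_of_subset_of_nonneg ?_ fun _ _ _ =>
                  Finset.sum_nonneg fun _ _ => sq_nonneg _
                intro r hr
                exact Finset.mem_filter.2 ⟨Finset.mem_univ _,
                  (hts v r (Finset.mem_filter.1 hr).2).1⟩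
      _ = (M : ℝ) * ∑ x, ∑ v, ∑ r ∈ univ.filter (fun r : V => r ≠ 0 ∧ φ x r = 0),
            (∑ τ : F, δ x (v + τ • r)) ^ 2 := by
          congr 1
          rw [Finset.sum_comm (s := (univ : Finset X))]
          refine Finset.sum_congr rfl fun v _ => ?_
          rw [Finset.sum_comm' (s := univ.filter (fun r : V => r ≠ 0))
            (t := fun r => univ.filter (fun x => φ x r = 0)) (t' := (univ : Finset X))
            (s' := fun x => univ.filter (fun r : V => r ≠ 0 ∧ φ x r = 0))]
          intro r x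
          simp
      _ ≤ (M : ℝ) * ∑ x, (Fintype.card V : ℝ) * ∑ v, δ x v ^ 2 := by
          apply mul_le_mul_of_nonneg_left _ (Nat.cast_nonneg M)
          refine Finset.sum_le_sum fun x _ => ?_
          exact radon (φ x) (c x) (δ x) (hsupp x) (hmean x) (hφ x)
      _ = (M : ℝ) * ((Fintype.card V : ℝ) * N) := by
          rw [← Finset.mul_sum, hN, Finset.sum_comm]
  have h4 : κ * q ^ 2 * N ≤ (M : ℝ) * (Fintype.card V : ℝ) * N := by
    have h5 := mul_le_mul_of_nonneg_left h1 (sq_nonneg q)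
    calc κ * q ^ 2 * N = q ^ 2 * (κ * N) := by ring
      _ ≤ _ := h5
      _ ≤ _ := h3
      _ = _ := by ring
  have h5 : N = 0 := by
    by_contra h
    have hpos : 0 < N := lt_of_le_of_ne hN0 (Ne.symm h)
    have h6 := mul_lt_mul_of_pos_right hκ hpos
    linarith
  intro x v
  have h6 := (Finset.sum_eq_zero_iff_of_nonneg
    (fun v _ => Finset.sum_nonneg fun x _ => sq_nonneg (δ x v))).1 (hN ▸ h5) v
    (Finset.mem_univ v)
  have h7 := (Finset.sum_eq_zero_iff_of_nonneg
    (fun x _ => sq_nonneg (δ x v))).1 h6 x (Finset.mem_univ x)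
  exact pow_eq_zero_iff (two_ne_zero) |>.1 h7

/-- **Combinatorial core with bad members**: in every good pencil at most `B` members are
allowed to violate the relation. -/
theorem core_bad (φ : X → V →ₗ[F] F) (c : X → F) (hφ : ∀ x, φ x ≠ 0)
    (ts : V → V → Prop) [∀ v r, Decidable (ts v r)] (L : V → V → Finset X) (M B : ℕ)
    (hcard : ∀ v r, ts v r → (L v r).card ≤ M)
    (hts : ∀ v r, ts v r → r ≠ 0 ∧ ∀ x ∈ L v r, φ x r = 0)
    (δ : X → V → ℝ) (hsupp : ∀ x v, φ x v ≠ c x → δ x v = 0) (hmean : ∀ x, ∑ v, δ x v = 0)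
    (hrel : ∀ v r, ts v r → ∃ Bd : Finset F, Bd.card ≤ B ∧ ∀ τ : F, τ ∉ Bd →
      ∑ x ∈ L v r, δ x (v + τ • r) = ∑ x ∈ L v r, δ x v)
    (hB : 2 * B ≤ Fintype.card F)
    (κ : ℝ) (hκ : 8 * (M : ℝ) * (1 + B) * (Fintype.card V : ℝ) < κ * (Fintype.card F : ℝ) ^ 2)
    (hlow : ∀ v, κ * ∑ x, δ x v ^ 2
      ≤ ∑ r ∈ univ.filter (fun r => ts v r), (∑ x ∈ L v r, δ x v) ^ 2) :
    ∀ x v, δ x v = 0 := by
  classical
  set q : ℝ := (Fintype.card F : ℝ) with hq
  have hqpos : 0 < q := by
    rw [hq]; exact_mod_cast Fintype.card_pos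
  set N : ℝ := ∑ v, ∑ x, δ x v ^ 2 with hN
  have hN0 : 0 ≤ N := Finset.sum_nonneg fun _ _ => Finset.sum_nonneg fun _ _ => sq_nonneg _
  have h1 : κ * N ≤ ∑ v, ∑ r ∈ univ.filter (fun r => ts v r), (∑ x ∈ L v r, δ x v) ^ 2 := by
    rw [hN, Finset.mul_sum]
    exact Finset.sum_le_sum fun v _ => hlow v
  -- the pencil average
  set G : X → V → V → ℝ := fun x v r =>
    (∑ τ : F, δ x (v + τ • r)) ^ 2 + B * ∑ τ : F, δ x (v + τ • r) ^ 2 with hG
  have hG0 : ∀ x v r, 0 ≤ G x v r := by
    intro x v r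
    simp only [hG]
    have : 0 ≤ ∑ τ : F, δ x (v + τ • r) ^ 2 := Finset.sum_nonneg fun _ _ => sq_nonneg _
    positivity
  have h2 : ∀ v r, ts v r → q ^ 2 * (∑ x ∈ L v r, δ x v) ^ 2
      ≤ 8 * (M : ℝ) * ∑ x ∈ L v r, G x v r := by
    intro v r h
    obtain ⟨Bd, hBd, hτ⟩ := hrel v r h
    set T : ℝ := ∑ x ∈ L v r, δ x v with hT
    set D : X → ℝ := fun x => ∑ τ : F, δ x (v + τ • r) with hD
    set E : X → ℝ := fun x => ∑ τ ∈ Bd, δ x (v + τ • r) with hE
    have h3 : (q - Bd.card) * T = ∑ x ∈ L v r, (D x - E x) := by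
      have h4 : ∀ x, D x - E x = ∑ τ ∈ univ \ Bd, δ x (v + τ • r) := by
        intro x
        simp only [hD, hE]
        rw [← Finset.sum_sdiff (Finset.subset_univ Bd)]
        ring
      simp_rw [h4]
      rw [Finset.sum_comm]
      rw [Finset.sum_congr rfl fun τ hτ' => hτ τ (Finset.mem_sdiff.1 hτ').2]
      rw [Finset.sum_const, Finset.card_sdiff_of_subset (Finset.subset_univ _),
        Finset.card_univ, nsmul_eq_mul, Nat.cast_sub (Finset.card_le_univ _)]
    have hBd' : (Bd.card : ℝ) ≤ q / 2 := by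
      have : (2 * Bd.card : ℝ) ≤ q := by
        rw [hq]
        exact_mod_cast le_trans (Nat.mul_le_mul_left 2 hBd) hB
      linarith
    have h5 : q ^ 2 * T ^ 2 ≤ 4 * ((q - Bd.card) * T) ^ 2 := by
      have h6 : q / 2 ≤ q - Bd.card := by linarith
      have h7 : (q / 2) ^ 2 ≤ (q - Bd.card) ^ 2 := by
        apply pow_le_pow_left₀ (by linarith) h6
      have h8 := mul_le_mul_of_nonneg_right h7 (sq_nonneg T)
      nlinarith
    refine h5.trans ?_
    rw [h3]
    have h9 := sq_sum_le_card_mul_sum_sq (s := L v r) (f := fun x => D x - E x)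
    have h10 : ∀ x ∈ L v r, (D x - E x) ^ 2 ≤ 2 * G x v r := by
      intro x _
      have h11 : E x ^ 2 ≤ B * ∑ τ : F, δ x (v + τ • r) ^ 2 := by
        have h12 := sq_sum_le_card_mul_sum_sq (s := Bd) (f := fun τ => δ x (v + τ • r))
        refine h12.trans ?_
        have h13 : ∑ τ ∈ Bd, δ x (v + τ • r) ^ 2 ≤ ∑ τ : F, δ x (v + τ • r) ^ 2 :=
          Finset.sum_le_sum_of_subset_of_nonneg (Finset.subset_univ _) fun _ _ _ => sq_nonneg _
        have h14 : (Bd.card : ℝ) ≤ B := by exact_mod_cast hBd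
        exact mul_le_mul h14 h13 (Finset.sum_nonneg fun _ _ => sq_nonneg _) (Nat.cast_nonneg _)
      simp only [hG]
      have h15 : (D x - E x) ^ 2 ≤ 2 * (D x ^ 2 + E x ^ 2) := by nlinarith [sq_nonneg (D x + E x)]
      have h16 : D x = ∑ τ : F, δ x (v + τ • r) := rfl
      rw [← h16]
      linarith
    have h17 : ∑ x ∈ L v r, (D x - E x) ^ 2 ≤ 2 * ∑ x ∈ L v r, G x v r := by
      rw [Finset.mul_sum]
      exact Finset.sum_le_sum h10
    have h18 : ((L v r).card : ℝ) ≤ M := by exact_mod_cast hcard v r h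
    have h19 : 0 ≤ ∑ x ∈ L v r, (D x - E x) ^ 2 := Finset.sum_nonneg fun _ _ => sq_nonneg _
    calc 4 * (∑ x ∈ L v r, (D x - E x)) ^ 2
        ≤ 4 * ((L v r).card * ∑ x ∈ L v r, (D x - E x) ^ 2) := by linarith
      _ ≤ 4 * (M * (2 * ∑ x ∈ L v r, G x v r)) := by
          apply mul_le_mul_of_nonneg_left _ (by norm_num)
          exact mul_le_mul h18 h17 h19 (Nat.cast_nonneg _)
      _ = _ := by ring
  -- the second part of `G`, for one point
  have hsecond : ∀ x, ∑ v, ∑ r ∈ univ.filter (fun r : V => r ≠ 0 ∧ φ x r = 0),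
      ∑ τ : F, δ x (v + τ • r) ^ 2 ≤ (Fintype.card V : ℝ) * ∑ v, δ x v ^ 2 := by
    intro x
    set R : Finset V := univ.filter (fun r : V => r ≠ 0 ∧ φ x r = 0) with hR
    have e1 : ∑ v, ∑ r ∈ R, ∑ τ : F, δ x (v + τ • r) ^ 2
        = (R.card : ℝ) * (q * ∑ v, δ x v ^ 2) := by
      rw [Finset.sum_comm]
      have : ∀ r ∈ R, ∑ v, ∑ τ : F, δ x (v + τ • r) ^ 2 = q * ∑ v, δ x v ^ 2 := by
        intro r _
        rw [Finset.sum_comm]
        have : ∀ τ : F, ∑ v, δ x (v + τ • r) ^ 2 = ∑ v, δ x v ^ 2 := fun τ =>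
          Fintype.sum_equiv (Equiv.addRight (τ • r)) _ _ (fun v => by simp)
        simp_rw [this]
        rw [Finset.sum_const, Finset.card_univ, nsmul_eq_mul]
      rw [Finset.sum_congr rfl this, Finset.sum_const, nsmul_eq_mul]
    rw [e1]
    have hcardR : q * (R.card : ℝ) ≤ (Fintype.card V : ℝ) := by
      obtain ⟨w, hw⟩ : ∃ w, φ x w ≠ 0 := by
        by_contra h
        push Not at h
        exact hφ x (LinearMap.ext fun w => by simpa using h w)
      have hinj : Function.Injective (fun p : F × {r : V // φ x r = 0} => p.1 • w + p.2.1) := by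
        rintro ⟨σ, r⟩ ⟨σ', r'⟩ h
        have h1 : σ • w + r.1 = σ' • w + r'.1 := h
        have h2 := congrArg (φ x) h1
        rw [map_add, map_add, map_smul, map_smul, r.2, r'.2, add_zero, add_zero, smul_eq_mul,
          smul_eq_mul] at h2
        have h3 : σ = σ' := mul_right_cancel₀ hw h2
        subst h3
        have h4 : r.1 = r'.1 := add_left_cancel h1
        exact Prod.ext rfl (Subtype.ext h4)
      have h1 := Fintype.card_le_of_injective _ hinj
      rw [Fintype.card_prod] at h1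
      have h2 : R.card ≤ Fintype.card {r : V // φ x r = 0} := by
        rw [Fintype.card_subtype]
        refine Finset.card_le_card fun r hr => ?_
        rw [hR, Finset.mem_filter] at hr
        exact Finset.mem_filter.2 ⟨Finset.mem_univ _, hr.2.2⟩
      have h3 : Fintype.card F * R.card ≤ Fintype.card V :=
        le_trans (Nat.mul_le_mul_left _ h2) h1
      rw [hq]
      exact_mod_cast h3
    have hA0 : 0 ≤ ∑ v, δ x v ^ 2 := Finset.sum_nonneg fun _ _ => sq_nonneg _
    calc (R.card : ℝ) * (q * ∑ v, δ x v ^ 2) = (q * R.card) * ∑ v, δ x v ^ 2 := by ring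
      _ ≤ _ := mul_le_mul_of_nonneg_right hcardR hA0
  have h3 : q ^ 2 * ∑ v, ∑ r ∈ univ.filter (fun r => ts v r), (∑ x ∈ L v r, δ x v) ^ 2
      ≤ 8 * (M : ℝ) * ((1 + B) * ((Fintype.card V : ℝ) * N)) := by
    calc q ^ 2 * ∑ v, ∑ r ∈ univ.filter (fun r => ts v r), (∑ x ∈ L v r, δ x v) ^ 2
        = ∑ v, ∑ r ∈ univ.filter (fun r => ts v r), q ^ 2 * (∑ x ∈ L v r, δ x v) ^ 2 := by
          rw [Finset.mul_sum]
          exact Finset.sum_congr rfl fun v _ => Finset.mul_sum _ _ _
      _ ≤ ∑ v, ∑ r ∈ univ.filter (fun r => ts v r),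
            8 * (M : ℝ) * ∑ x ∈ L v r, G x v r := by
          refine Finset.sum_le_sum fun v _ => Finset.sum_le_sum fun r hr => ?_
          exact h2 v r (Finset.mem_filter.1 hr).2
      _ = 8 * (M : ℝ) * ∑ v, ∑ r ∈ univ.filter (fun r => ts v r),
            ∑ x ∈ L v r, G x v r := by
          rw [Finset.mul_sum]
          exact Finset.sum_congr rfl fun v _ => (Finset.mul_sum _ _ _).symm
      _ ≤ 8 * (M : ℝ) * ∑ v, ∑ r ∈ univ.filter (fun r : V => r ≠ 0),
            ∑ x ∈ univ.filter (fun x => φ x r = 0), G x v r := by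
          apply mul_le_mul_of_nonneg_left _ (by positivity)
          refine Finset.sum_le_sum fun v _ => ?_
          calc ∑ r ∈ univ.filter (fun r => ts v r), ∑ x ∈ L v r, G x v r
              ≤ ∑ r ∈ univ.filter (fun r => ts v r),
                  ∑ x ∈ univ.filter (fun x => φ x r = 0), G x v r := by
                refine Finset.sum_le_sum fun r hr => ?_
                refine Finset.sum_le_sum_of_subset_of_nonneg ?_ fun _ _ _ => hG0 _ _ _
                intro x hx
                exact Finset.mem_filter.2 ⟨Finset.mem_univ _,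
                  (hts v r (Finset.mem_filter.1 hr).2).2 x hx⟩
            _ ≤ _ := by
                refine Finset.sum_le_sum_of_subset_of_nonneg ?_ fun _ _ _ =>
                  Finset.sum_nonneg fun _ _ => hG0 _ _ _
                intro r hr
                exact Finset.mem_filter.2 ⟨Finset.mem_univ _,
                  (hts v r (Finset.mem_filter.1 hr).2).1⟩
      _ = 8 * (M : ℝ) * ∑ x, ∑ v, ∑ r ∈ univ.filter (fun r : V => r ≠ 0 ∧ φ x r = 0),
            G x v r := by
          congr 1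
          rw [Finset.sum_comm (s := (univ : Finset X))]
          refine Finset.sum_congr rfl fun v _ => ?_
          rw [Finset.sum_comm' (s := univ.filter (fun r : V => r ≠ 0))
            (t := fun r => univ.filter (fun x => φ x r = 0)) (t' := (univ : Finset X))
            (s' := fun x => univ.filter (fun r : V => r ≠ 0 ∧ φ x r = 0))]
          intro r x
          simp
      _ ≤ 8 * (M : ℝ) * ∑ x, ((1 + B) * ((Fintype.card V : ℝ) * ∑ v, δ x v ^ 2)) := by
          apply mul_le_mul_of_nonneg_left _ (by positivity)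
          refine Finset.sum_le_sum fun x _ => ?_
          have e1 := radon (φ x) (c x) (δ x) (hsupp x) (hmean x) (hφ x)
          have e2 := hsecond x
          simp only [hG]
          simp only [Finset.sum_add_distrib]
          have e3 : ∑ v, ∑ r ∈ univ.filter (fun r : V => r ≠ 0 ∧ φ x r = 0),
              (B : ℝ) * ∑ τ : F, δ x (v + τ • r) ^ 2
              = B * ∑ v, ∑ r ∈ univ.filter (fun r : V => r ≠ 0 ∧ φ x r = 0),
              ∑ τ : F, δ x (v + τ • r) ^ 2 := by
            rw [Finset.mul_sum]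
            exact Finset.sum_congr rfl fun v _ => (Finset.mul_sum _ _ _).symm
          rw [e3]
          have e4 := mul_le_mul_of_nonneg_left e2 (Nat.cast_nonneg B : (0 : ℝ) ≤ B)
          linarith
      _ = 8 * (M : ℝ) * ((1 + B) * ((Fintype.card V : ℝ) * N)) := by
          rw [← Finset.mul_sum, ← Finset.mul_sum, hN, Finset.sum_comm]
  have h4 : κ * q ^ 2 * N ≤ 8 * (M : ℝ) * (1 + B) * (Fintype.card V : ℝ) * N := by
    have h5 := mul_le_mul_of_nonneg_left h1 (sq_nonneg q)
    calc κ * q ^ 2 * N = q ^ 2 * (κ * N) := by ring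
      _ ≤ _ := h5
      _ ≤ _ := h3
      _ = _ := by ring
  have h5 : N = 0 := by
    by_contra h
    have hpos : 0 < N := lt_of_le_of_ne hN0 (Ne.symm h)
    have h6 := mul_lt_mul_of_pos_right hκ hpos
    linarith
  intro x v
  have h6 := (Finset.sum_eq_zero_iff_of_nonneg
    (fun v _ => Finset.sum_nonneg fun x _ => sq_nonneg (δ x v))).1 (hN ▸ h5) v
    (Finset.mem_univ v)
  have h7 := (Finset.sum_eq_zero_iff_of_nonneg
    (fun x _ => sq_nonneg (δ x v))).1 h6 x (Finset.mem_univ x)
  exact pow_eq_zero_iff (two_ne_zero) |>.1 h7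

end core

section gap

variable {X R Y : Type*} [DecidableEq X] [DecidableEq Y]

/-- Lower bound for the quadratic form of the incidence sums from nearly constant pair counts.
`P` = points of a curve, `S` = good sections, `L r` = the `M` points of the section `r`,
`fib` = projection to the base line: two points with the same projection never lie on a
common section, other pairs lie on `nbar ± η` sections. -/
theorem gap (S : Finset R) (L : R → Finset X) (P : Finset X) (fib : X → Y) (M b : ℕ)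
    (hM : 2 ≤ M) (hLP : ∀ r ∈ S, L r ⊆ P) (hcard : ∀ r ∈ S, (L r).card = M)
    (nbar η : ℝ) (hη : 0 ≤ η) (hn : η ≤ nbar)
    (hfib : ∀ x ∈ P, (P.filter (fun y => fib y = fib x)).card ≤ b)
    (hsame : ∀ r ∈ S, ∀ x ∈ L r, ∀ y ∈ L r, fib x = fib y → x = y)
    (hpair : ∀ x ∈ P, ∀ y ∈ P, fib x ≠ fib y →
      |((S.filter (fun r => x ∈ L r ∧ y ∈ L r)).card : ℝ) - nbar| ≤ η)
    (f : X → ℝ) :
    (((P.card : ℝ) - b) * (nbar - η) / ((M : ℝ) - 1) - b * nbar - η * P.card)
        * ∑ x ∈ P, f x ^ 2 ≤ ∑ r ∈ S, (∑ x ∈ L r, f x) ^ 2 := by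
  classical
  set n : X → X → ℝ := fun x y => ((S.filter (fun r => x ∈ L r ∧ y ∈ L r)).card : ℝ) with hndef
  set A : ℝ := ∑ x ∈ P, f x ^ 2 with hA
  have hA0 : 0 ≤ A := Finset.sum_nonneg fun _ _ => sq_nonneg _
  have hM1 : (0 : ℝ) < (M : ℝ) - 1 := by
    have : (2 : ℝ) ≤ M := by exact_mod_cast hM
    linarith
  -- expansion
  have hexp : ∑ r ∈ S, (∑ x ∈ L r, f x) ^ 2 = ∑ x ∈ P, ∑ y ∈ P, n x y * (f x * f y) := by
    have h1 : ∀ r ∈ S, (∑ x ∈ L r, f x) ^ 2
        = ∑ x ∈ P, ∑ y ∈ P, (if x ∈ L r ∧ y ∈ L r then f x * f y else 0) := by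
      intro r hr
      rw [sq, Finset.sum_mul_sum]
      have h2 : ∀ x, (∑ y ∈ P, (if x ∈ L r ∧ y ∈ L r then f x * f y else 0))
          = if x ∈ L r then ∑ y ∈ L r, f x * f y else 0 := by
        intro x
        by_cases hx : x ∈ L r
        · simp only [hx, true_and, if_true]
          rw [← Finset.sum_filter]
          refine Finset.sum_congr ?_ fun _ _ => rfl
          ext y
          rw [Finset.mem_filter]
          exact ⟨fun h => h.2, fun h => ⟨hLP r hr h, h⟩⟩
        · simp [hx]
      simp_rw [h2]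
      rw [← Finset.sum_filter]
      refine Finset.sum_congr ?_ fun _ _ => rfl
      ext x
      rw [Finset.mem_filter]
      exact ⟨fun h => ⟨hLP r hr h, h⟩, fun h => h.2⟩
    rw [Finset.sum_congr rfl h1, Finset.sum_comm]
    refine Finset.sum_congr rfl fun x _ => ?_
    rw [Finset.sum_comm]
    refine Finset.sum_congr rfl fun y _ => ?_
    rw [← Finset.sum_filter, Finset.sum_const, nsmul_eq_mul]
  -- pairs with the same projection
  have hn0 : ∀ x y, fib x = fib y → x ≠ y → n x y = 0 := by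
    intro x y hxy hne
    simp only [hndef]
    rw [Nat.cast_eq_zero, Finset.card_eq_zero]
    ext r
    simp only [Finset.mem_filter, Finset.notMem_empty, iff_false]
    rintro ⟨hr, hx, hy⟩
    exact hne (hsame r hr x hx y hy hxy)
  -- the diagonal
  have hdiag : ∀ x ∈ P, ((P.card : ℝ) - b) * (nbar - η) ≤ ((M : ℝ) - 1) * n x x := by
    intro x hx
    have h1 : ((M : ℝ) - 1) * n x x = ∑ y ∈ P.erase x, n x y := by
      have h2 : ∑ y ∈ P.erase x, n x y
          = ∑ r ∈ S, ∑ y ∈ P.erase x, (if x ∈ L r ∧ y ∈ L r then (1 : ℝ) else 0) := by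
        rw [Finset.sum_comm]
        refine Finset.sum_congr rfl fun y _ => ?_
        rw [← Finset.sum_filter, Finset.sum_const, nsmul_eq_mul, mul_one]
      have h3 : ∀ r ∈ S, ∑ y ∈ P.erase x, (if x ∈ L r ∧ y ∈ L r then (1 : ℝ) else 0)
          = if x ∈ L r ∧ x ∈ L r then ((M : ℝ) - 1) else 0 := by
        intro r hr
        by_cases hxr : x ∈ L r
        · simp only [hxr, true_and, if_true, and_self]
          rw [← Finset.sum_filter, Finset.sum_const, nsmul_eq_mul, mul_one]
          have h4 : (P.erase x).filter (fun y => y ∈ L r) = (L r).erase x := by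
            ext y
            rw [Finset.mem_filter, Finset.mem_erase, Finset.mem_erase]
            exact ⟨fun h => ⟨h.1.1, h.2⟩, fun h => ⟨⟨h.1, hLP r hr h.2⟩, h.2⟩⟩
          rw [h4, Finset.card_erase_of_mem hxr, hcard r hr, Nat.cast_sub (by omega)]
          simp
        · simp [hxr]
      rw [h2, Finset.sum_congr rfl h3, ← Finset.sum_filter, Finset.sum_const, nsmul_eq_mul,
        mul_comm]
    rw [h1]
    have h5 : ∑ y ∈ P.filter (fun y => fib x ≠ fib y), (nbar - η) ≤ ∑ y ∈ P.erase x, n x y := by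
      calc ∑ y ∈ P.filter (fun y => fib x ≠ fib y), (nbar - η)
          ≤ ∑ y ∈ P.filter (fun y => fib x ≠ fib y), n x y := by
            refine Finset.sum_le_sum fun y hy => ?_
            rw [Finset.mem_filter] at hy
            have := (abs_le.1 (hpair x hx y hy.1 hy.2)).1
            simp only [hndef]
            linarith
        _ ≤ ∑ y ∈ P.erase x, n x y := by
            refine Finset.sum_le_sum_of_subset_of_nonneg ?_ fun _ _ _ => Nat.cast_nonneg _
            intro y hy
            rw [Finset.mem_filter] at hy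
            exact Finset.mem_erase.2 ⟨fun h => hy.2 (by rw [h]), hy.1⟩
    refine le_trans ?_ h5
    rw [Finset.sum_const, nsmul_eq_mul]
    apply mul_le_mul_of_nonneg_right _ (by linarith)
    have h6 := Finset.card_filter_add_card_filter_not (s := P) (fun y => fib y = fib x)
    have h7 := hfib x hx
    have h8 : (P.filter (fun y => fib x ≠ fib y)).card
        = (P.filter (fun y => ¬ fib y = fib x)).card := by
      congr 1
      refine Finset.filter_congr fun y _ => ?_
      exact not_congr eq_comm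
    rw [h8]
    have h9 : (P.card : ℝ) = ((P.filter (fun y => fib y = fib x)).card : ℝ)
        + ((P.filter (fun y => ¬ fib y = fib x)).card : ℝ) := by
      exact_mod_cast h6.symm
    have h10 : ((P.filter (fun y => fib y = fib x)).card : ℝ) ≤ b := by exact_mod_cast h7
    linarith
  -- lower bound for every pair
  have hpairlow : ∀ x ∈ P, ∀ y ∈ P, (if x = y then n x x * f x ^ 2 else 0)
      + nbar * (f x * f y) - (if fib y = fib x then nbar * ((f x ^ 2 + f y ^ 2) / 2) else 0)
      - η * ((f x ^ 2 + f y ^ 2) / 2) ≤ n x y * (f x * f y) := by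
    intro x hx y hy
    have hsq : |f x * f y| ≤ (f x ^ 2 + f y ^ 2) / 2 := by
      rw [abs_le]
      constructor
      · nlinarith [sq_nonneg (f x + f y)]
      · nlinarith [sq_nonneg (f x - f y)]
    have hsq2 := abs_le.1 hsq
    have hsq0 : 0 ≤ (f x ^ 2 + f y ^ 2) / 2 := by positivity
    have hnb : 0 ≤ nbar := le_trans hη hn
    by_cases hxy : x = y
    · subst hxy
      simp only [if_true]
      have h1 : 0 ≤ η * ((f x ^ 2 + f x ^ 2) / 2) := mul_nonneg hη hsq0
      nlinarith
    · rw [if_neg hxy]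
      by_cases hf : fib y = fib x
      · rw [if_pos hf, hn0 x y hf.symm hxy, zero_mul]
        have h1 : nbar * (f x * f y) ≤ nbar * ((f x ^ 2 + f y ^ 2) / 2) :=
          mul_le_mul_of_nonneg_left hsq2.2 hnb
        have h2 : 0 ≤ η * ((f x ^ 2 + f y ^ 2) / 2) := mul_nonneg hη hsq0
        linarith
      · rw [if_neg hf]
        have h1 := hpair x hx y hy (fun h => hf h.symm)
        have h2 : |(n x y - nbar) * (f x * f y)| ≤ η * ((f x ^ 2 + f y ^ 2) / 2) := by
          rw [abs_mul]
          exact mul_le_mul h1 hsq (abs_nonneg _) hη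
        have h3 := (abs_le.1 h2).1
        nlinarith
  rw [hexp]
  have hsum : ∑ x ∈ P, ∑ y ∈ P, ((if x = y then n x x * f x ^ 2 else 0)
      + nbar * (f x * f y) - (if fib y = fib x then nbar * ((f x ^ 2 + f y ^ 2) / 2) else 0)
      - η * ((f x ^ 2 + f y ^ 2) / 2)) ≤ ∑ x ∈ P, ∑ y ∈ P, n x y * (f x * f y) :=
    Finset.sum_le_sum fun x hx => Finset.sum_le_sum fun y hy => hpairlow x hx y hy
  refine le_trans ?_ hsum
  simp only [Finset.sum_sub_distrib, Finset.sum_add_distrib]
  have e1 : ∑ x ∈ P, ∑ y ∈ P, (if x = y then n x x * f x ^ 2 else 0)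
      = ∑ x ∈ P, n x x * f x ^ 2 := by
    refine Finset.sum_congr rfl fun x hx => ?_
    rw [Finset.sum_ite_eq]
    simp [hx]
  have e2 : ∑ x ∈ P, ∑ y ∈ P, nbar * (f x * f y) = nbar * (∑ x ∈ P, f x) ^ 2 := by
    rw [sq, Finset.sum_mul_sum, Finset.mul_sum]
    refine Finset.sum_congr rfl fun x _ => ?_
    rw [Finset.mul_sum]
  have e3 : ∑ x ∈ P, ∑ y ∈ P, (if fib y = fib x then nbar * ((f x ^ 2 + f y ^ 2) / 2) else 0)
      ≤ b * nbar * A := by
    have hsym : ∑ x ∈ P, ∑ y ∈ P, (if fib y = fib x then nbar * ((f x ^ 2 + f y ^ 2) / 2) else 0)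
        = ∑ x ∈ P, ∑ y ∈ P, (if fib y = fib x then nbar * f x ^ 2 else 0) := by
      have h1 : ∑ x ∈ P, ∑ y ∈ P, (if fib y = fib x then nbar * f y ^ 2 else 0)
          = ∑ x ∈ P, ∑ y ∈ P, (if fib y = fib x then nbar * f x ^ 2 else 0) := by
        rw [Finset.sum_comm]
        refine Finset.sum_congr rfl fun x _ => Finset.sum_congr rfl fun y _ => ?_
        simp only [eq_comm]
      have h2 : ∑ x ∈ P, ∑ y ∈ P,
          (if fib y = fib x then nbar * ((f x ^ 2 + f y ^ 2) / 2) else 0)
          = (1/2) * ∑ x ∈ P, ∑ y ∈ P, (if fib y = fib x then nbar * f x ^ 2 else 0)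
            + (1/2) * ∑ x ∈ P, ∑ y ∈ P, (if fib y = fib x then nbar * f y ^ 2 else 0) := by
        rw [Finset.mul_sum, Finset.mul_sum, ← Finset.sum_add_distrib]
        refine Finset.sum_congr rfl fun x _ => ?_
        rw [Finset.mul_sum, Finset.mul_sum, ← Finset.sum_add_distrib]
        refine Finset.sum_congr rfl fun y _ => ?_
        split_ifs <;> ring
      rw [h2, h1]; ring
    rw [hsym, hA, Finset.mul_sum]
    refine Finset.sum_le_sum fun x hx => ?_
    rw [← Finset.sum_filter, Finset.sum_const, nsmul_eq_mul]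
    have h1 : ((P.filter (fun y => fib y = fib x)).card : ℝ) ≤ b := by
      exact_mod_cast hfib x hx
    have h2 : 0 ≤ nbar * f x ^ 2 := mul_nonneg (le_trans hη hn) (sq_nonneg _)
    calc _ ≤ (b : ℝ) * (nbar * f x ^ 2) := mul_le_mul_of_nonneg_right h1 h2
      _ = _ := by ring
  have e4 : ∑ x ∈ P, ∑ y ∈ P, η * ((f x ^ 2 + f y ^ 2) / 2) = η * P.card * A := by
    have h1 : ∀ x ∈ P, ∑ y ∈ P, η * ((f x ^ 2 + f y ^ 2) / 2)
        = η / 2 * (P.card * f x ^ 2) + η / 2 * A := by
      intro x _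
      have : ∀ y ∈ P, η * ((f x ^ 2 + f y ^ 2) / 2) = η / 2 * f x ^ 2 + η / 2 * f y ^ 2 := by
        intro y _; ring
      rw [Finset.sum_congr rfl this, Finset.sum_add_distrib, Finset.sum_const, nsmul_eq_mul,
        ← Finset.mul_sum]
      ring
    rw [Finset.sum_congr rfl h1, Finset.sum_add_distrib, Finset.sum_const, nsmul_eq_mul,
      ← Finset.mul_sum, ← Finset.mul_sum]
    ring
  have e5 : ((P.card : ℝ) - b) * (nbar - η) / ((M : ℝ) - 1) * A ≤ ∑ x ∈ P, n x x * f x ^ 2 := by
    rw [hA, Finset.mul_sum]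
    refine Finset.sum_le_sum fun x hx => ?_
    apply mul_le_mul_of_nonneg_right _ (sq_nonneg _)
    rw [div_le_iff₀ hM1]
    have := hdiag x hx
    linarith
  have e6 : 0 ≤ nbar * (∑ x ∈ P, f x) ^ 2 := mul_nonneg (le_trans hη hn) (sq_nonneg _)
  rw [e1, e2, e4]
  have : (((P.card : ℝ) - b) * (nbar - η) / ((M : ℝ) - 1) - b * nbar - η * P.card) * A
      = ((P.card : ℝ) - b) * (nbar - η) / ((M : ℝ) - 1) * A - b * nbar * A
        - η * P.card * A := by ring
  rw [this]
  linarith

end gap

end Pool.Agent.H20.Par
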